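import Mathlib

set_option autoImplicit false

open Set Filter Topology

namespace Pool.Agent.H162R3.BD

/-- every sequence of elements of `A` has a cluster point in `A` -/
def SeqCl {Z : Type*} [TopologicalSpace Z] (A : Set Z) : Prop :=
  ∀ f : ℕ → Z, (∀ n, f n ∈ A) → ∃ a ∈ A, ∀ W ∈ 𝓝 a, ∃ᶠ n in atTop, f n ∈ W

/-- if real numbers `u n` converge to `a` and cluster at `b` then `a = b` -/
theorem eq_of_cluster {u : ℕ → ℝ} {a b : ℝ} (h : Tendsto u atTop (𝓝 a))
    (hb : ∀ ε > 0, ∃ᶠ n in atTop, |u n - b| < ε) : b = a := by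
  by_contra hne
  have hε : 0 < |a - b| / 2 := by
    have : 0 < |a - b| := abs_pos.2 (sub_ne_zero.2 (Ne.symm hne))
    linarith
  have h1 : ∀ᶠ n in atTop, |u n - a| < |a - b| / 2 := by
    have := Metric.tendsto_nhds.1 h _ hε
    simpa [Real.dist_eq] using this
  obtain ⟨n, hn1, hn2⟩ := ((hb _ hε).and_eventually h1).exists
  have : |a - b| ≤ |u n - a| + |u n - b| := by
    have := abs_sub_le a (u n) b
    rw [abs_sub_comm a (u n)] at this
    exact this
  linarith

theorem evOpen {J : Type*} (x : J) (a : J → ℝ) (ε : ℝ) (hε : 0 < ε) :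
    {h : J → ℝ | |h x - a x| < ε} ∈ 𝓝 a := by
  have : IsOpen {h : J → ℝ | |h x - a x| < ε} :=
    isOpen_lt ((continuous_apply x).sub continuous_const).abs continuous_const
  exact this.mem_nhds (by simpa using hε)

theorem bounded {J : Type*} (A : Set (J → ℝ)) (hA : SeqCl A)
    (x : J) : ∃ M : ℝ, ∀ f ∈ A, |f x| ≤ M := by
  by_contra hcon
  push Not at hcon
  choose f hfA hf using fun n : ℕ => hcon n
  obtain ⟨a, -, ha⟩ := hA f hfA
  have h1 := ha _ (evOpen x a 1 one_pos)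
  obtain ⟨N, hN⟩ := exists_nat_gt (|a x| + 1)
  obtain ⟨n, hn1, hn2⟩ := (h1.and_eventually (eventually_ge_atTop N)).exists
  have h2 := hf n
  have h3 : |(f n) x| ≤ |(f n) x - a x| + |a x| := by
    have := abs_add_le ((f n) x - a x) (a x)
    simpa using this
  have h4 : (N : ℝ) ≤ n := by exact_mod_cast hn2
  have h5 : |(f n) x - a x| < 1 := hn1
  linarith

theorem compact_closure {J : Type*} (A : Set (J → ℝ)) (hA : SeqCl A) :
    IsCompact (closure A) := by
  choose M hM using bounded A hA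
  have h1 : IsCompact (Set.pi univ fun x => Icc (-(M x)) (M x)) :=
    isCompact_univ_pi fun x => isCompact_Icc
  refine h1.of_isClosed_subset isClosed_closure (closure_minimal ?_ h1.isClosed)
  intro f hf x _
  exact abs_le.1 (hM x f hf)

/-- approximation on a finite set -/
theorem approx {J : Type*} (B : Set (J → ℝ)) (g : J → ℝ) (hg : g ∈ closure B)
    (T : Finset J) (ε : ℝ) (hε : 0 < ε) : ∃ f ∈ B, ∀ t ∈ T, |f t - g t| < ε := by
  have hU : IsOpen {h : J → ℝ | ∀ t ∈ T, |h t - g t| < ε} := by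
    have : {h : J → ℝ | ∀ t ∈ T, |h t - g t| < ε} = ⋂ t ∈ T, {h : J → ℝ | |h t - g t| < ε} := by
      ext; simp
    rw [this]
    refine isOpen_biInter_finset fun t _ => ?_
    exact isOpen_lt ((continuous_apply t).sub continuous_const).abs continuous_const
  obtain ⟨h, hh, hB⟩ := mem_closure_iff.1 hg _ hU (by intro t _; simpa using hε)
  exact ⟨h, hB, hh⟩

theorem approxPt {X : Type*} [TopologicalSpace X] (S : Set X) (x : X) (hx : x ∈ closure S)
    (T : Set (X → ℝ)) (hT : T.Finite) (hc : ∀ f ∈ T, Continuous f) (ε : ℝ) (hε : 0 < ε) :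
    ∃ z ∈ S, ∀ f ∈ T, |f z - f x| < ε := by
  have hU : IsOpen {z : X | ∀ f ∈ T, |f z - f x| < ε} := by
    have : {z : X | ∀ f ∈ T, |f z - f x| < ε} = ⋂ f ∈ T, {z : X | |f z - f x| < ε} := by
      ext; simp
    rw [this]
    refine hT.isOpen_biInter fun f hf => ?_
    exact isOpen_lt ((hc f hf).sub continuous_const).abs continuous_const
  obtain ⟨h, hh, hB⟩ := mem_closure_iff.1 hx _ hU (by intro t _; simpa using hε)
  exact ⟨h, hB, hh⟩

/-- **Grothendieck**: on a compact space, the pointwise closure of a sequentially clustering set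
of continuous functions consists of continuous functions -/
theorem continuous_of_compact {X : Type*} [TopologicalSpace X] [CompactSpace X]
    (A : Set (X → ℝ)) (hAc : ∀ f ∈ A, Continuous f) (hA : SeqCl A) (g : X → ℝ)
    (hg : g ∈ closure A) : Continuous g := by
  classical
  rw [continuous_iff_isClosed]
  intro F hF
  rw [← closure_subset_iff_isClosed]
  intro x hx
  by_contra hxF
  obtain ⟨ε, hε, hεF⟩ : ∃ ε > 0, ∀ y ∈ g ⁻¹' F, ε ≤ |g y - g x| := by
    have h1 : Fᶜ ∈ 𝓝 (g x) := hF.isOpen_compl.mem_nhds hxF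
    obtain ⟨ε, hε, h2⟩ := Metric.mem_nhds_iff.1 h1
    refine ⟨ε, hε, fun y hy => ?_⟩
    by_contra h3
    exact h2 (by rw [Metric.mem_ball, Real.dist_eq]; exact not_le.1 h3) hy
  -- the interleaved sequences
  obtain ⟨s, hsP, hsr⟩ := exists_seq_of_forall_finset_exists
    (fun t : ℕ × (X → ℝ) × X => t.2.1 ∈ A ∧ t.2.2 ∈ g ⁻¹' F ∧
      |t.2.1 x - g x| < 1 / ((t.1 : ℝ) + 1))
    (fun t t' : ℕ × (X → ℝ) × X => t.1 < t'.1 ∧ |t'.2.1 t.2.2 - g t.2.2| < 1 / ((t'.1 : ℝ) + 1) ∧
      |t.2.1 t'.2.2 - t.2.1 x| < 1 / ((t'.1 : ℝ) + 1)) (by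
      intro S hS
      let k : ℕ := S.sup (fun t => t.1) + 1
      have hk : (0 : ℝ) < 1 / ((k : ℝ) + 1) := by positivity
      obtain ⟨f, hfA, hf⟩ := approx _ g hg (insert x (S.image fun t => t.2.2)) _ hk
      obtain ⟨z, hz, hzf⟩ := approxPt _ x hx (↑(S.image fun t => t.2.1)) (Finset.finite_toSet _)
        (by
          intro f hf
          obtain ⟨t, ht, rfl⟩ := Finset.mem_image.mp (Finset.mem_coe.mp hf)
          exact hAc _ (hS t ht).1) _ hk
      refine ⟨(k, f, z), ⟨hfA, hz, hf x (Finset.mem_insert_self _ _)⟩, fun t ht => ⟨?_, ?_, ?_⟩⟩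
      · exact Nat.lt_succ_of_le (Finset.le_sup (f := fun t : ℕ × (X → ℝ) × X => t.1) ht)
      · exact hf _ (Finset.mem_insert_of_mem (Finset.mem_image_of_mem _ ht))
      · exact hzf _ (Finset.mem_coe.mpr (Finset.mem_image_of_mem _ ht)))
  have hmono : StrictMono fun n => (s n).1 := fun m n hmn => (hsr m n hmn).1
  have hk : ∀ n, n ≤ (s n).1 := fun n => hmono.le_apply
  have hle : ∀ n, 1 / (((s n).1 : ℝ) + 1) ≤ 1 / ((n : ℝ) + 1) := fun n => by
    have : (n : ℝ) ≤ (s n).1 := by exact_mod_cast hk n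
    exact one_div_le_one_div_of_le (by positivity) (by linarith)
  have hlim0 : Tendsto (fun n : ℕ => 1 / ((n : ℝ) + 1)) atTop (𝓝 0) :=
    tendsto_one_div_add_atTop_nhds_zero_nat
  have htend : ∀ (u : ℕ → ℝ) (c : ℝ) (N : ℕ), (∀ n > N, |u n - c| < 1 / (((s n).1 : ℝ) + 1)) →
      Tendsto u atTop (𝓝 c) := by
    intro u c N h
    rw [tendsto_iff_dist_tendsto_zero]
    refine squeeze_zero' (Eventually.of_forall fun _ => dist_nonneg) ?_ hlim0
    filter_upwards [eventually_gt_atTop N] with n hn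
    rw [Real.dist_eq]
    exact (h n hn).le.trans (hle n)
  have hl1 : ∀ i, Tendsto (fun n => (s n).2.1 (s i).2.2) atTop (𝓝 (g (s i).2.2)) :=
    fun i => htend _ _ i fun n hn => (hsr i n hn).2.1
  have hl2 : Tendsto (fun n => (s n).2.1 x) atTop (𝓝 (g x)) :=
    htend _ _ 0 fun n _ => (hsP n).2.2
  have hl3 : ∀ i, Tendsto (fun n => (s i).2.1 (s n).2.2) atTop (𝓝 ((s i).2.1 x)) :=
    fun i => htend _ _ i fun n hn => (hsr i n hn).2.2
  -- the cluster points
  obtain ⟨y, -, hy⟩ := isCompact_univ.exists_mapClusterPt (u := fun n => (s n).2.2)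
    (f := atTop) (tendsto_principal.2 (Eventually.of_forall fun n => mem_univ (s n).2.2))
  have hy' : ∀ (f : X → ℝ) (hf : Continuous f) (δ : ℝ), 0 < δ →
      ∃ᶠ n in atTop, |f (s n).2.2 - f y| < δ := by
    intro f hf δ hδ
    have hU : {z : X | |f z - f y| < δ} ∈ 𝓝 y := by
      have : IsOpen {z : X | |f z - f y| < δ} :=
        isOpen_lt (hf.sub continuous_const).abs continuous_const
      exact this.mem_nhds (by simpa using hδ)
    exact hy.frequently hU
  obtain ⟨f, hfA, hf⟩ := hA (fun n => (s n).2.1) fun n => (hsP n).1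
  have hf' : ∀ (z : X) (δ : ℝ), 0 < δ → ∃ᶠ n in atTop, |(s n).2.1 z - f z| < δ :=
    fun z δ hδ => hf _ (evOpen z f δ hδ)
  have e1 : ∀ i, (s i).2.1 y = (s i).2.1 x := fun i =>
    eq_of_cluster (hl3 i) (hy' _ (hAc _ (hsP i).1))
  have e2 : ∀ i, f (s i).2.2 = g (s i).2.2 := fun i => eq_of_cluster (hl1 i) (hf' _)
  have e3 : f y = g x := by
    refine eq_of_cluster (u := fun n => (s n).2.1 y) ?_ (hf' y)
    simpa only [e1] using hl2
  obtain ⟨n, hn⟩ := (hy' f (hAc f hfA) ε hε).exists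
  rw [e2, e3] at hn
  exact absurd hn (not_lt.2 (hεF _ (hsP n).2.1))

end Pool.Agent.H162R3.BD
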