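import Mathlib
import Pool.Agent.H162R3.BD.Groth

set_option autoImplicit false

open Set Filter Topology

namespace Pool.Agent.H162R3.BD

/-- The evaluation map `X → ℝ^{C(X)}`. -/
def ev {X : Type*} [TopologicalSpace X] (x : X) (f : {f : X → ℝ // Continuous f}) : ℝ := f.1 x

/-- **Agreement**: let `A` be bounded in `X` and let `y` be in the closure of the evaluations at
points of `A`. For countably many continuous functions `f k` there is a point `x` of `X` where
each `f k` takes the value `y (f k)`. -/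
theorem agree {X : Type*} [TopologicalSpace X] (A : Set X)
    (hA : ∀ f : X → ℝ, Continuous f → ∃ C : ℝ, ∀ x ∈ A, |f x| ≤ C)
    (y : {f : X → ℝ // Continuous f} → ℝ) (hy : y ∈ closure (ev '' A))
    (f : ℕ → {f : X → ℝ // Continuous f}) : ∃ x, ∀ k, (f k).1 x = y (f k) := by
  classical
  by_contra hcon
  push Not at hcon
  -- the weighted sum
  let t : ℕ → X → ℝ := fun k x => (1 / 2 : ℝ) ^ k * min 1 |(f k).1 x - y (f k)|
  have ht0 : ∀ k x, 0 ≤ t k x := fun k x => by positivity
  have ht1 : ∀ k x, t k x ≤ (1 / 2 : ℝ) ^ k := fun k x => by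
    have h1 : min 1 |(f k).1 x - y (f k)| ≤ 1 := min_le_left _ _
    have h2 : (0 : ℝ) ≤ (1 / 2 : ℝ) ^ k := by positivity
    calc t k x ≤ (1 / 2 : ℝ) ^ k * 1 := mul_le_mul_of_nonneg_left h1 h2
      _ = _ := mul_one _
  have hsum : Summable fun k : ℕ => (1 / 2 : ℝ) ^ k := summable_geometric_two
  have htc : ∀ k, Continuous (t k) := fun k => by
    have := (f k).2
    fun_prop
  let g : X → ℝ := fun x => ∑' k, t k x
  have hg : Continuous g := by
    refine continuous_tsum htc hsum fun k x => ?_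
    rw [Real.norm_of_nonneg (ht0 k x)]
    exact ht1 k x
  have hsx : ∀ x, Summable fun k => t k x := fun x =>
    Summable.of_nonneg_of_le (fun k => ht0 k x) (fun k => ht1 k x) hsum
  have hpos : ∀ x, 0 < g x := fun x => by
    obtain ⟨k, hk⟩ := hcon x
    refine (hsx x).tsum_pos (fun k => ht0 k x) k ?_
    have h1 : 0 < |(f k).1 x - y (f k)| := abs_pos.mpr (sub_ne_zero.mpr hk)
    have h2 : 0 < min 1 |(f k).1 x - y (f k)| := lt_min one_pos h1
    positivity
  obtain ⟨C, hC⟩ := hA (fun x => (g x)⁻¹) (hg.inv₀ fun x => (hpos x).ne')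
  have hC' : ∀ x ∈ A, (g x)⁻¹ ≤ |C| + 1 := fun x hx => by
    have h1 := hC x hx
    have h2 := le_abs_self (g x)⁻¹
    have h3 := le_abs_self C
    linarith
  have hCpos : 0 < |C| + 1 := by positivity
  have hlow : ∀ x ∈ A, (|C| + 1)⁻¹ ≤ g x := fun x hx => by
    rw [inv_le_comm₀ hCpos (hpos x)]
    exact hC' x hx
  -- choose N
  obtain ⟨N, hN⟩ : ∃ N : ℕ, 2 * (1 / 2 : ℝ) ^ N < (|C| + 1)⁻¹ / 2 := by
    have hp : (0 : ℝ) < (|C| + 1)⁻¹ / 4 := by positivity
    obtain ⟨N, hN⟩ := exists_pow_lt_of_lt_one hp (show (1 / 2 : ℝ) < 1 by norm_num)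
    exact ⟨N, by linarith⟩
  have hδ : (0 : ℝ) < (|C| + 1)⁻¹ / (2 * ((N : ℝ) + 1)) := by positivity
  obtain ⟨_, ⟨x, hxA, rfl⟩, hx⟩ := approx (ev '' A) y hy ((Finset.range N).image f) _ hδ
  have h1 : g x < (|C| + 1)⁻¹ := by
    have hsplit : g x = (∑ k ∈ Finset.range N, t k x) + ∑' k, t (k + N) x :=
      ((hsx x).sum_add_tsum_nat_add N).symm
    have hA1 : (∑ k ∈ Finset.range N, t k x) ≤ (|C| + 1)⁻¹ / 2 := by
      have h3 : ∀ k ∈ Finset.range N, t k x ≤ (|C| + 1)⁻¹ / (2 * ((N : ℝ) + 1)) := by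
        intro k hk
        have h4 := hx (f k) (Finset.mem_image_of_mem _ hk)
        have h5 : min 1 |(f k).1 x - y (f k)| ≤ |(f k).1 x - y (f k)| := min_le_right _ _
        have h6 : (1 / 2 : ℝ) ^ k ≤ 1 := pow_le_one₀ (by norm_num) (by norm_num)
        have h7 : 0 ≤ min 1 |(f k).1 x - y (f k)| := by positivity
        calc t k x ≤ 1 * min 1 |(f k).1 x - y (f k)| := mul_le_mul_of_nonneg_right h6 h7
          _ ≤ _ := by
            rw [one_mul]
            exact h5.trans h4.le
      have h8 := Finset.sum_le_card_nsmul _ _ _ h3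
      rw [Finset.card_range, nsmul_eq_mul] at h8
      refine h8.trans ?_
      rw [mul_div_assoc', div_le_div_iff₀ (by positivity) (by positivity)]
      have : (0 : ℝ) < (|C| + 1)⁻¹ := by positivity
      nlinarith
    have hA2 : (∑' k, t (k + N) x) ≤ 2 * (1 / 2 : ℝ) ^ N := by
      have h3 : ∀ k, t (k + N) x ≤ (1 / 2 : ℝ) ^ k * (1 / 2 : ℝ) ^ N := fun k => by
        rw [← pow_add]
        exact ht1 _ _
      have h4 : Summable fun k : ℕ => (1 / 2 : ℝ) ^ k * (1 / 2 : ℝ) ^ N := hsum.mul_right _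
      have h5 := Summable.tsum_le_tsum h3 ((summable_nat_add_iff N).mpr (hsx x)) h4
      rw [tsum_mul_right, tsum_geometric_two] at h5
      exact h5
    rw [hsplit]
    linarith
  exact absurd (hlow x hxA) (not_le.mpr h1)

/-- the closure of the evaluations at the points of a bounded set is compact -/
theorem compact_ev {X : Type*} [TopologicalSpace X] (A : Set X)
    (hA : ∀ f : X → ℝ, Continuous f → ∃ C : ℝ, ∀ x ∈ A, |f x| ≤ C) :
    IsCompact (closure ((ev '' A) : Set ({f : X → ℝ // Continuous f} → ℝ))) := by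
  choose M hM using fun f : {f : X → ℝ // Continuous f} => hA f.1 f.2
  have h1 : IsCompact (Set.pi univ fun x => Icc (-(M x)) (M x)) :=
    isCompact_univ_pi fun x => isCompact_Icc
  refine h1.of_isClosed_subset isClosed_closure (closure_minimal ?_ h1.isClosed)
  rintro _ ⟨x, hx, rfl⟩ f _
  exact abs_le.1 (hM f x hx)

/-- countable compactness in the sense of covers gives cluster points of sequences -/
theorem seqCl_of_cover {Z : Type*} [TopologicalSpace Z] (K : Set Z)
    (hK : ∀ U : ℕ → Set Z, (∀ n, IsOpen (U n)) → K ⊆ ⋃ n, U n →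
      ∃ N : ℕ, K ⊆ ⋃ n ∈ Finset.range N, U n) : SeqCl K := by
  intro f hf
  by_contra hcon
  push Not at hcon
  obtain ⟨N, hN⟩ := hK (fun n => (closure (f '' {m | n ≤ m}))ᶜ)
    (fun n => isClosed_closure.isOpen_compl) (by
      intro a ha
      obtain ⟨W, hW, hWf⟩ := hcon a ha
      rw [eventually_atTop] at hWf
      obtain ⟨n, hn⟩ := hWf
      refine mem_iUnion.mpr ⟨n, ?_⟩
      rw [mem_compl_iff, mem_closure_iff_nhds]
      push Not
      refine ⟨W, hW, ?_⟩
      rw [eq_empty_iff_forall_notMem]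
      rintro z ⟨hz, m, hm, rfl⟩
      exact hn m hm hz)
  have h1 := hN (hf N)
  simp only [mem_iUnion] at h1
  obtain ⟨n, hn, h2⟩ := h1
  rw [Finset.mem_range] at hn
  exact h2 (subset_closure ⟨N, hn.le, rfl⟩)

end Pool.Agent.H162R3.BD
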