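import Mathlib
import Pool.Agent.H162R3.BD.Agree
import Pool.Agent.Helper639.AL

set_option autoImplicit false

open Set Filter Topology
open Pool.Agent.Helper639.Ebl (C0 al)

namespace Pool.Agent.H162R3.BD

/-- in a compact space with an injective c₀-family, closure points are limits of sequences -/
theorem seq_of_c0 {G : Type} [TopologicalSpace G] [CompactSpace G] {Γ : Type} {H : G → Γ → ℝ}
    (hH : C0 H) (hinj : Function.Injective H) (S : Set G) (z : G) (hz : z ∈ closure S) :
    ∃ s : ℕ → G, (∀ n, s n ∈ S) ∧ Tendsto s atTop (𝓝 z) := by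
  classical
  have hcont : Continuous H := continuous_pi hH.cont
  have hemb : IsEmbedding H := (hcont.isClosedEmbedding hinj).isEmbedding
  obtain ⟨s, hsP, hsr⟩ := exists_seq_of_forall_finset_exists
    (fun t : ℕ × G => t.2 ∈ S ∧ ∀ γ, 1 / ((t.1 : ℝ) + 1) ≤ |H z γ| →
      |H t.2 γ - H z γ| < 1 / ((t.1 : ℝ) + 1))
    (fun t t' : ℕ × G => t.1 < t'.1 ∧ ∀ γ, 1 / ((t'.1 : ℝ) + 1) ≤ |H t.2 γ| →
      |H t'.2 γ - H z γ| < 1 / ((t'.1 : ℝ) + 1)) (by
      intro T _
      let k : ℕ := T.sup (fun t => t.1) + 1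
      have hk : (0 : ℝ) < 1 / ((k : ℝ) + 1) := by positivity
      have hfin : ({γ | 1 / ((k : ℝ) + 1) ≤ |H z γ|} ∪
          ⋃ t ∈ T, {γ | 1 / ((k : ℝ) + 1) ≤ |H t.2 γ|}).Finite :=
        (hH.fin z _ hk).union (T.finite_toSet.biUnion fun t _ => hH.fin t.2 _ hk)
      obtain ⟨w, hw, hwf⟩ := approxPt S z hz ((fun γ (x : G) => H x γ) '' ({γ | 1 / ((k : ℝ) + 1) ≤ |H z γ|} ∪
          ⋃ t ∈ T, {γ | 1 / ((k : ℝ) + 1) ≤ |H t.2 γ|})) (hfin.image _)
        (by rintro _ ⟨γ, _, rfl⟩; exact hH.cont γ) _ hk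
      refine ⟨(k, w), ⟨hw, fun γ hγ => hwf _ ⟨γ, Or.inl hγ, rfl⟩⟩, fun t ht => ⟨?_, fun γ hγ => ?_⟩⟩
      · exact Nat.lt_succ_of_le (Finset.le_sup (f := fun t : ℕ × G => t.1) ht)
      · exact hwf _ ⟨γ, Or.inr (mem_iUnion₂.mpr ⟨t, ht, hγ⟩), rfl⟩)
  refine ⟨fun n => (s n).2, fun n => (hsP n).1, ?_⟩
  rw [hemb.tendsto_nhds_iff, tendsto_pi_nhds]
  intro γ
  have hmono : StrictMono fun n => (s n).1 := fun m n hmn => (hsr m n hmn).1
  have hk : ∀ n, n ≤ (s n).1 := fun n => hmono.le_apply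
  have hle : ∀ n, 1 / (((s n).1 : ℝ) + 1) ≤ 1 / ((n : ℝ) + 1) := fun n => by
    have : (n : ℝ) ≤ (s n).1 := by exact_mod_cast hk n
    exact one_div_le_one_div_of_le (by positivity) (by linarith)
  have hlim0 : Tendsto (fun n : ℕ => 1 / ((n : ℝ) + 1)) atTop (𝓝 0) :=
    tendsto_one_div_add_atTop_nhds_zero_nat
  have hev : ∀ c : ℝ, 0 < c → ∀ᶠ n : ℕ in atTop, 1 / (((s n).1 : ℝ) + 1) ≤ c := fun c hc => by
    have h1 : ∀ᶠ n : ℕ in atTop, 1 / ((n : ℝ) + 1) < c := (tendsto_order.1 hlim0).2 c hc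
    filter_upwards [h1] with n hn
    exact (hle n).trans hn.le
  have key : (∀ᶠ n in atTop, |H (s n).2 γ - H z γ| < 1 / (((s n).1 : ℝ) + 1)) →
      Tendsto (fun n => H (s n).2 γ) atTop (𝓝 (H z γ)) := by
    intro h
    rw [tendsto_iff_dist_tendsto_zero]
    refine squeeze_zero' (Eventually.of_forall fun _ => dist_nonneg) ?_ hlim0
    filter_upwards [h] with n hn
    rw [Real.dist_eq]
    exact hn.le.trans (hle n)
  by_cases h0 : H z γ = 0
  · by_cases h1 : ∃ j, H (s j).2 γ ≠ 0
    · obtain ⟨j, hj⟩ := h1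
      apply key
      filter_upwards [hev _ (abs_pos.mpr hj), eventually_gt_atTop j] with n hn hn2
      exact (hsr j n hn2).2 γ hn
    · push Not at h1
      have : (fun n => H (s n).2 γ) = fun _ => H z γ := funext fun n => by rw [h1 n, h0]
      change Tendsto (fun n => H (s n).2 γ) atTop (𝓝 (H z γ))
      rw [this]
      exact tendsto_const_nhds
  · apply key
    filter_upwards [hev _ (abs_pos.mpr h0)] with n hn
    exact (hsP n).2 γ hn

/-- a sequentially clustering subset of a compact space with an injective c₀-family is closed -/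
theorem closed_of_seqCl {G : Type} [TopologicalSpace G] [CompactSpace G] {Γ : Type} {H : G → Γ → ℝ}
    (hH : C0 H) (hinj : Function.Injective H) (S : Set G) (hS : SeqCl S) : IsClosed S := by
  have hT2 : T2Space G := T2Space.of_injective_continuous hinj (continuous_pi hH.cont)
  rw [← closure_subset_iff_isClosed]
  intro z hz
  obtain ⟨s, hs, hlim⟩ := seq_of_c0 hH hinj S z hz
  obtain ⟨a, ha, hcl⟩ := hS s hs
  have : a = z := by
    by_contra hne
    obtain ⟨U, V, hU, hV, haU, hzV, hUV⟩ := t2_separation hne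
    have h1 := hcl U (hU.mem_nhds haU)
    have h2 := hlim.eventually (hV.mem_nhds hzV)
    obtain ⟨n, hn1, hn2⟩ := (h1.and_eventually h2).exists
    exact (disjoint_left.mp hUV) hn1 hn2
  exact this ▸ ha

/-- A continuous injective image criterion: a space in which closed sets are sequentially
clustering and which maps injectively and continuously to a compact space with an injective
c₀-family is compact. -/
theorem compact_of_seqCl {Q G : Type} [TopologicalSpace Q] [TopologicalSpace G] [CompactSpace G]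
    {Γ : Type} {H : G → Γ → ℝ} (hH : C0 H) (hinj : Function.Injective H)
    (hQ : SeqCl (univ : Set Q)) (ψ : Q → G) (hψ : Continuous ψ) (hψi : Function.Injective ψ) :
    CompactSpace Q := by
  have hcl : ∀ C : Set Q, IsClosed C → SeqCl C := by
    intro C hC f hf
    obtain ⟨a, -, ha⟩ := hQ f fun n => mem_univ _
    refine ⟨a, ?_, ha⟩
    by_contra hcon
    obtain ⟨n, hn⟩ := (ha _ (hC.isOpen_compl.mem_nhds hcon)).exists
    exact hn (hf n)
  have himg : ∀ C : Set Q, IsClosed C → IsClosed (ψ '' C) := by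
    intro C hC
    apply closed_of_seqCl hH hinj
    intro f hf
    choose g hg hgf using hf
    obtain ⟨a, ha, hcla⟩ := hcl C hC g hg
    refine ⟨ψ a, ⟨a, ha, rfl⟩, fun W hW => ?_⟩
    refine (hcla _ (hψ.continuousAt hW)).mono fun n hn => ?_
    rw [← hgf n]
    exact hn
  have hce : IsClosedEmbedding ψ := .of_continuous_injective_isClosedMap hψ hψi himg
  exact hce.compactSpace

end Pool.Agent.H162R3.BD
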